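import Pool.Agent.N783.PQ.Lat

/-!
# Project PQ (helper783), part LB (helper134): from the lattice to a bad polynomial
-/

set_option autoImplicit false
set_option linter.all false

open Polynomial IsDedekindDomain Matrix NumberField
open scoped Classical

namespace Pool.Agent.N134.PQ

open Pool.Agent.N783.PQ
open Pool.Agent.N352.PJ (Mt Typ dd)

section gen

variable {L : Type} [Field L] [NumberField L] {g : ℕ} {f : ℤ[X]} {θ : L}

/-- `f` is the minimal polynomial -/
theorem irrQ (h : IsGen g f θ) : Irreducible (f.map (Int.castRingHom ℚ)) := by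
  let pb : PowerBasis ℚ L := ⟨θ, 2 * g + 1, h.basis, fun i => h.basis_apply i⟩
  have hdeg : (minpoly ℚ θ).natDegree = 2 * g + 1 := pb.natDegree_minpoly
  have hint : IsIntegral ℚ θ := pb.isIntegral_gen
  have hmon : (f.map (Int.castRingHom ℚ)).Monic := h.mon.map _
  have h0 : aeval θ (f.map (Int.castRingHom ℚ)) = 0 := by
    have : Int.castRingHom ℚ = algebraMap ℤ ℚ := rfl
    rw [this, aeval_map_algebraMap]
    exact h.root
  have hd : minpoly ℚ θ ∣ f.map (Int.castRingHom ℚ) := minpoly.dvd ℚ θ h0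
  have he : f.map (Int.castRingHom ℚ) = minpoly ℚ θ :=
    Polynomial.eq_of_monic_of_dvd_of_natDegree_le (minpoly.monic hint) hmon hd (by
      rw [hdeg, h.mon.natDegree_map, h.deg])
  rw [he]
  exact minpoly.irreducible hint

theorem top_pow (h : IsGen g f θ) (i : ℕ) (hi : i ≤ 2 * g) :
    h.top (θ ^ i) = if i = 2 * g then 1 else 0 := by
  have h1 : θ ^ i = h.basis ⟨i, by omega⟩ := (h.basis_apply ⟨i, by omega⟩).symm
  rw [h1, IsGen.top, Module.Basis.coord_apply, Module.Basis.repr_self, Finsupp.single_apply]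
  by_cases h2 : i = 2 * g
  · rw [if_pos h2, if_pos (Fin.ext (by simp [h2]))]
  · rw [if_neg h2, if_neg (fun h3 => h2 (by simpa using congrArg Fin.val h3))]

theorem const_of_top (h : IsGen g f θ) (y : L) (hy : ∀ m < 2 * g, h.top (θ ^ m * y) = 0) :
    y = ((h.top (θ ^ (2 * g) * y) : ℚ) : L) := by
  obtain ⟨c, hc⟩ : ∃ c : Fin (2 * g + 1) → ℚ, c = fun i => h.basis.repr y i := ⟨_, rfl⟩
  have hsum : y = ∑ i, (c i) • θ ^ (i : ℕ) := by
    conv_lhs => rw [← h.basis.sum_repr y]
    rw [hc]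
    exact Finset.sum_congr rfl fun i _ => by rw [h.basis_apply]
  have key : ∀ m : ℕ, (hm : m ≤ 2 * g) → (∀ i : Fin (2 * g + 1), 2 * g < i + m → c i = 0) →
      h.top (θ ^ m * y) = c ⟨2 * g - m, by omega⟩ := by
    intro m hm hz
    rw [hsum, Finset.mul_sum, map_sum,
      Finset.sum_eq_single (⟨2 * g - m, by omega⟩ : Fin (2 * g + 1))]
    · rw [mul_smul_comm, map_smul, ← pow_add, top_pow h _ (by simp only; omega),
        if_pos (by simp only; omega), smul_eq_mul, mul_one]
    · intro i _ hi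
      rw [mul_smul_comm, map_smul, ← pow_add]
      by_cases h1 : 2 * g < i + m
      · rw [hz i h1, zero_smul]
      · rw [top_pow h _ (by omega), if_neg (by intro h2; apply hi; apply Fin.ext; simp only; omega),
          smul_zero]
    · intro h1
      exact absurd (Finset.mem_univ _) h1
  have hz : ∀ m : ℕ, m ≤ 2 * g → ∀ i : Fin (2 * g + 1), 2 * g < i + m → c i = 0 := by
    intro m
    induction m with
    | zero =>
      intro _ i hi
      have := i.2
      omega
    | succ m ih =>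
      intro hm i hi
      by_cases h1 : 2 * g < i + m
      · exact ih (by omega) i h1
      · have h2 := key m (by omega) (ih (by omega))
        rw [hy m (by omega)] at h2
        rw [show i = ⟨2 * g - m, by omega⟩ from Fin.ext (by simp only; omega)]
        exact h2.symm
  rw [key (2 * g) le_rfl (hz (2 * g) le_rfl)]
  conv_lhs => rw [hsum]
  rw [Finset.sum_eq_single (⟨2 * g - 2 * g, by omega⟩ : Fin (2 * g + 1))]
  · simp only [Nat.sub_self, pow_zero]
    rw [Algebra.smul_def, mul_one]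
    rfl
  · intro i _ hi
    rw [hz (2 * g) le_rfl i, zero_smul]
    by_contra h1
    apply hi
    apply Fin.ext
    simp only
    omega
  · intro h1
    exact absurd (Finset.mem_univ _) h1

theorem rat_of_sq (hr : Module.finrank ℚ L = 2 * g + 1) (x : L) (q : ℤ) (hx : x ^ 2 = (q : L)) :
    ∃ j : ℤ, (j : L) = x := by
  have hint : IsIntegral ℤ x := ⟨X ^ 2 - C q, monic_X_pow_sub_C q two_ne_zero, by
    rw [eval₂_sub, eval₂_X_pow, eval₂_C, hx]
    simp⟩
  have hintQ : IsIntegral ℚ x := hint.tower_top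
  have hdiv : minpoly ℚ x ∣ X ^ 2 - C (q : ℚ) := minpoly.dvd ℚ x (by simp [hx])
  have hd1 : (minpoly ℚ x).natDegree ≤ 2 := by
    have := natDegree_le_of_dvd hdiv (X_pow_sub_C_ne_zero two_pos _)
    rwa [natDegree_X_pow_sub_C] at this
  have hd2 : (minpoly ℚ x).natDegree ∣ 2 * g + 1 := hr ▸ minpoly.degree_dvd hintQ
  have hd3 := minpoly.natDegree_pos hintQ
  have hd4 : (minpoly ℚ x).natDegree = 1 := by
    rcases (show (minpoly ℚ x).natDegree = 1 ∨ (minpoly ℚ x).natDegree = 2 by omega) with h | h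
    · exact h
    · rw [h] at hd2
      omega
  obtain ⟨r, hr'⟩ := minpoly.mem_range_of_degree_eq_one ℚ x (by
    rw [degree_eq_natDegree (minpoly.ne_zero hintQ), hd4]; rfl)
  have hrint : IsIntegral ℤ r := by
    rw [← hr'] at hint
    exact (isIntegral_algebraMap_iff (algebraMap ℚ L).injective).1 hint
  obtain ⟨j, hj⟩ := IsIntegrallyClosed.isIntegral_iff.1 hrint
  refine ⟨j, ?_⟩
  rw [← hr', ← hj]
  simp

theorem one_le_B {B : ℕ} (hg : 1 ≤ g) (h : IsGen g f θ) (hH : Ht g B f) : 1 ≤ B := by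
  by_contra hB
  have hB0 : B = 0 := by omega
  subst hB0
  have h0 : ∀ j ≤ 2 * g, f.coeff j = 0 := by
    intro j hj
    have := hH.ht j hj
    rw [Nat.cast_zero, zero_pow (by omega)] at this
    exact abs_nonpos_iff.1 this
  have hf : f = X ^ (2 * g + 1) := by
    ext j
    rw [coeff_X_pow]
    rcases lt_trichotomy j (2 * g + 1) with h1 | h1 | h1
    · rw [if_neg (by omega), h0 j (by omega)]
    · rw [if_pos h1, h1, ← hH.deg]
      exact hH.mon
    · rw [if_neg (by omega), coeff_eq_zero_of_natDegree_lt (by rw [hH.deg]; omega)]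
  have h1 := irrQ h
  rw [hf, Polynomial.map_pow, map_X] at h1
  exact (not_irreducible_pow (by omega : 2 * g + 1 ≠ 1)) h1

end gen

/-! ### matrices -/

section mat

variable {g : ℕ}

theorem gram {R : Type} [CommRing R] (M V : Mt g R) (i j : Fin (2 * g + 1)) :
    (Vᵀ * M * V) i j = (fun a => V a i) ⬝ᵥ (M *ᵥ (fun a => V a j)) := by
  rw [Matrix.mul_assoc]
  rfl

theorem castM {R : Type} [CommRing R] (φ : ℤ →+* R) (U A : Mt g ℤ) :
    (Uᵀ * A * U).map φ = (U.map φ)ᵀ * A.map φ * U.map φ := by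
  rw [Matrix.map_mul, Matrix.map_mul, Matrix.transpose_map]

theorem four_zpow (z : ℤ) : (4 : ℝ) ^ z = ((2 : ℝ) ^ z) ^ 2 := by
  rw [show (4 : ℝ) = 2 ^ (2 : ℤ) by norm_num, ← _root_.zpow_mul, ← zpow_natCast,
    ← _root_.zpow_mul, mul_comm]
  rfl

theorem int_zero {a z : ℤ} (h : ((|a| : ℤ) : ℝ) ≤ (2 : ℝ) ^ z) (hz : z < 0) : a = 0 := by
  have h1 : (2 : ℝ) ^ z < 1 := zpow_lt_one_of_neg₀ (by norm_num) hz
  have h2 : ((|a| : ℤ) : ℝ) < 1 := h.trans_lt h1
  have h3 : |a| < 1 := by exact_mod_cast h2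
  exact Int.abs_lt_one_iff.1 h3

/-- the bound for the entries -/
theorem entry {H : Mt g ℝ} (hH : H.PosDef) {A U : Mt g ℤ} {b : ℝ} (hb : 0 ≤ b) {C : ℕ}
    {w : Fin (2 * g + 1) → ℤ}
    (h1 : ∀ x y : Fin (2 * g + 1) → ℝ, (x ⬝ᵥ (A.map (Int.cast : ℤ → ℝ) *ᵥ y)) ^ 2 ≤
      b ^ 2 * ((x ⬝ᵥ (H *ᵥ x)) * (y ⬝ᵥ (H *ᵥ y))))
    (h2 : ∀ i, ((U.map (Int.cast : ℤ → ℝ))ᵀ * H * U.map (Int.cast : ℤ → ℝ)) i i ≤
      (4 : ℝ) ^ ((C : ℤ) + w i)) (i j : Fin (2 * g + 1)) :
    ((|(Uᵀ * A * U) i j| : ℤ) : ℝ) ≤ b * (2 : ℝ) ^ (2 * (C : ℤ) + w i + w j) := by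
  have h3 : (((Uᵀ * A * U) i j : ℤ) : ℝ) =
      (fun a => (U.map (Int.cast : ℤ → ℝ)) a i) ⬝ᵥ
        (A.map (Int.cast : ℤ → ℝ) *ᵥ (fun a => (U.map (Int.cast : ℤ → ℝ)) a j)) := by
    rw [← gram]
    exact congrFun (congrFun (castM (Int.castRingHom ℝ) U A) i) j
  have h4 := h1 (fun a => (U.map (Int.cast : ℤ → ℝ)) a i) (fun a => (U.map (Int.cast : ℤ → ℝ)) a j)
  rw [← h3] at h4
  have h5 := h2 i
  have h6 := h2 j
  rw [gram] at h5 h6
  have h7 : ∀ x : Fin (2 * g + 1) → ℝ, 0 ≤ x ⬝ᵥ (H *ᵥ x) := fun x => by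
    have := hH.posSemidef.dotProduct_mulVec_nonneg x
    simpa using this
  have h8 : (((Uᵀ * A * U) i j : ℤ) : ℝ) ^ 2 ≤ (b * (2 : ℝ) ^ (2 * (C : ℤ) + w i + w j)) ^ 2 := by
    refine h4.trans ?_
    rw [mul_pow]
    refine mul_le_mul_of_nonneg_left ?_ (sq_nonneg b)
    refine (mul_le_mul h5 h6 (h7 _) (by positivity)).trans (le_of_eq ?_)
    rw [← zpow_add₀ (by norm_num), ← four_zpow]
    congr 1
    ring
  rw [Int.cast_abs]
  exact abs_le_of_sq_le_sq h8 (by positivity)

/-- passage to a field -/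
theorem chp_map {K : Type} [Field K] (φ : ℤ →+* K) (A B : Mt g ℤ) (hA : IsUnit A.det) :
    chp (A.map φ) (B.map φ) = (chp A B).map φ := by
  have h1 : (A.map φ)⁻¹ = A⁻¹.map φ := by
    apply Matrix.inv_eq_right_inv
    rw [← Matrix.map_mul, Matrix.mul_nonsing_inv _ hA, Matrix.map_one _ (map_zero φ) (map_one φ)]
  unfold chp
  rw [h1, ← Matrix.map_mul]
  exact Matrix.charpoly_map _ φ

end mat

/-- **PQ/LB** -/
theorem lb (h1 : S_TYP) (h2 : S_MAJ) (h3 : S_CHI) (h4 : S_GAP) (h5 : S_SQ) : S_LB := by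
  intro g hg
  obtain ⟨C, hC⟩ := h1 g
  refine ⟨2 * C + 2 * g + 2, ?_⟩
  obtain ⟨κ, hκ⟩ : ∃ κ, κ = 2 * C + 2 * g + 2 := ⟨_, rfl⟩
  rw [← hκ]
  intro L _ _ f θ B N S h hG hHt hBN hcon α e A A' hα hnorm hLat hdist hor
  have hB1 : 1 ≤ B := one_le_B hg hG hHt
  have hκN : κ ≤ 2 * N := by
    have t1 : 2 ^ κ ≤ 4 ^ N := le_trans (Nat.le_mul_of_pos_right _ hB1) hBN
    rw [show (4 : ℕ) = 2 ^ 2 by norm_num, ← pow_mul] at t1
    exact (Nat.pow_le_pow_iff_right (by norm_num)).1 t1
  have hBN1 : (B : ℝ) ≤ 4 ^ N := by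
    have t1 : B ≤ 4 ^ N := le_trans (Nat.le_mul_of_pos_left _ (by positivity)) hBN
    exact_mod_cast t1
  have hB0 : (1 : ℝ) ≤ B := by exact_mod_cast hB1
  obtain ⟨sA, sA', hli, hchp, hdet, hform, hU⟩ := h3 g L f θ hG α e A A' hα hLat
  obtain ⟨H, hH, hHdet, m1, m2, m3, m4⟩ := h2 g B L f θ hg hG hHt α e A A' hα hLat
  obtain ⟨U, w, hUd, hTyp, hUw⟩ := hC H A hH hHdet sA hLat.det m1
  have hLat1 := hU U hUd
  obtain ⟨A₁, hA₁⟩ : ∃ A₁, A₁ = Uᵀ * A * U := ⟨_, rfl⟩
  obtain ⟨A₂, hA₂⟩ : ∃ A₂, A₂ = Uᵀ * A' * U := ⟨_, rfl⟩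
  obtain ⟨e', he'⟩ : ∃ e' : Fin (2 * g + 1) → L, e' = fun j => ∑ i, (U i j : L) * e i := ⟨_, rfl⟩
  rw [← hA₁, ← hA₂, ← he'] at hLat1
  obtain ⟨sA1, sA2, hli1, hchp1, hdet1, hform1, -⟩ := h3 g L f θ hG α e' A₁ A₂ hα hLat1
  have hdet2 := hdet1 hnorm
  have hdu : IsUnit A₁.det := by
    rw [hdet2]
    exact (isUnit_one.neg).pow _
  -- bounds
  have bA : ∀ i j, ((|A₁ i j| : ℤ) : ℝ) ≤ (2 : ℝ) ^ ((κ : ℤ) + w i + w j) := by
    intro i j
    have t1 := entry hH (A := A) (U := U) (b := 1) (by norm_num) (C := C) (w := w)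
      (by simpa using m1) hUw i j
    rw [← hA₁, one_mul] at t1
    refine t1.trans (zpow_le_zpow_right₀ (by norm_num) ?_)
    rw [hκ]
    push_cast
    have : (0 : ℤ) ≤ g := by positivity
    linarith
  have bB : ∀ i j, ((|A₂ i j| : ℤ) : ℝ) ≤ (2 : ℝ) ^ (2 * (N : ℤ) + w i + w j) := by
    intro i j
    have t1 := entry hH (A := A') (U := U) (b := 2 * B) (by positivity) (C := C) (w := w)
      m2 hUw i j
    rw [← hA₂] at t1
    refine t1.trans ?_
    have t2 : (2 * (B : ℝ)) * (2 : ℝ) ^ (2 * (C : ℤ)) ≤ (2 : ℝ) ^ (2 * (N : ℤ)) := by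
      have t3 : 2 * B * 2 ^ (2 * C) ≤ 2 ^ (2 * N) := by
        calc 2 * B * 2 ^ (2 * C) = 2 ^ (2 * C + 1) * B := by ring
          _ ≤ 2 ^ κ * B := Nat.mul_le_mul_right _ (Nat.pow_le_pow_right (by norm_num) (by omega))
          _ ≤ 4 ^ N := hBN
          _ = 2 ^ (2 * N) := by rw [show (4 : ℕ) = 2 ^ 2 by norm_num, ← pow_mul]
      exact_mod_cast t3
    calc 2 * (B : ℝ) * (2 : ℝ) ^ (2 * (C : ℤ) + w i + w j)
        = (2 * (B : ℝ)) * (2 : ℝ) ^ (2 * (C : ℤ)) * (2 : ℝ) ^ (w i + w j) := by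
          rw [add_assoc, zpow_add₀ (by norm_num)]
          ring
      _ ≤ (2 : ℝ) ^ (2 * (N : ℤ)) * (2 : ℝ) ^ (w i + w j) :=
          mul_le_mul_of_nonneg_right t2 (by positivity)
      _ = (2 : ℝ) ^ (2 * (N : ℤ) + w i + w j) := by
          rw [add_assoc, ← zpow_add₀ (by norm_num)]
  -- the type
  refine ⟨irrQ hG, w, hTyp, ?_, ?_, A₁, A₂, ⟨⟨sA1, sA2, hdet2, ?_, bA, bB⟩, ?_, ?_⟩, hchp1⟩
  · -- gaps
    intro i j hij
    by_contra hcon'
    push Not at hcon'
    have hi : (i : ℕ) + 1 < 2 * g + 1 := by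
      rw [← hij]
      exact j.2
    have hchpQ := chp_map (Int.castRingHom ℚ) A₁ A₂ hdu
    obtain ⟨a, ha, b, hb, hab⟩ := h4 g ℚ (A₁.map (Int.castRingHom ℚ)) (A₂.map (Int.castRingHom ℚ))
      (by
        have := congrArg (fun M : Mt g ℤ => M.map (Int.castRingHom ℚ)) sA1
        simpa [Matrix.IsSymm, Matrix.transpose_map] using this)
      (by
        have := congrArg (fun M : Mt g ℤ => M.map (Int.castRingHom ℚ)) sA2
        simpa [Matrix.IsSymm, Matrix.transpose_map] using this)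
      (by
        have t : (A₁.map (Int.castRingHom ℚ)).det = Int.castRingHom ℚ A₁.det :=
          (RingHom.map_det _ _).symm
        rw [t, hdet2]
        simp)
      (by rw [hchpQ, hchp1]; exact irrQ hG)
      i ⟨2 * g - 1 - i, by omega⟩ (by simp only; omega)
    have t2 := hTyp.mono ha
    have t3 := hTyp.mono hb
    have t4 : (⟨2 * g - 1 - i, by omega⟩ : Fin (2 * g + 1)) = Fin.rev j := by
      apply Fin.ext
      rw [Fin.val_rev]
      simp only
      omega
    rw [t4, hTyp.anti] at t3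
    have z1 : A₁ a b = 0 := int_zero (bA a b) (by
      have : (κ : ℤ) ≤ 2 * N := by exact_mod_cast hκN
      linarith)
    have z2 : A₂ a b = 0 := int_zero (bB a b) (by linarith)
    rcases hab with hab | hab
    · apply hab
      rw [Matrix.map_apply, z1, map_zero]
    · apply hab
      rw [Matrix.map_apply, z2, map_zero]
  · -- the middle gap or the depth
    rcases hor with hns | ⟨rfl, hj⟩
    · left
      intro i hi
      by_contra hcon'
      push Not at hcon'
      apply hns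
      have hz : ∀ a b : Fin (2 * g + 1), (a : ℕ) < g → (b : ℕ) < g → A₁ a b = 0 ∧ A₂ a b = 0 := by
        intro a b ha hb
        have t2 := hTyp.mono (show a ≤ i from Fin.le_def.2 (by omega))
        have t3 := hTyp.mono (show b ≤ i from Fin.le_def.2 (by omega))
        constructor
        · exact int_zero (bA a b) (by
            have : (κ : ℤ) ≤ 2 * N := by exact_mod_cast hκN
            linarith)
        · exact int_zero (bB a b) (by linarith)
      refine h5 g L f θ hg hG α e' hα hli1 ?_ ?_ hnorm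
      · intro a b ha hb
        rw [← hLat1.gA, (hz a b ha hb).1, Int.cast_zero]
      · intro a b ha hb
        rw [← hLat1.gB, (hz a b ha hb).2, Int.cast_zero]
    · right
      obtain ⟨v, hv⟩ : ∃ v : Fin (2 * g + 1) → ℤ, v = fun i => U i 0 := ⟨_, rfl⟩
      obtain ⟨h0, hh0⟩ : ∃ h0 : ℝ, h0 = (fun i => (v i : ℝ)) ⬝ᵥ (H *ᵥ (fun i => (v i : ℝ))) :=
        ⟨_, rfl⟩
      have n3 := m3 v
      have n4 := m4 rfl v
      rw [← hh0] at n3 n4
      have hle : h0 ≤ (4 : ℝ) ^ ((C : ℤ) + w 0) := by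
        have t := hUw 0
        rw [gram] at t
        rw [hh0, hv]
        exact t
      have hv0 : v ≠ 0 := by
        intro t
        rw [hv] at t
        have : U.det = 0 := Matrix.det_eq_zero_of_column_eq_zero 0 fun i => congrFun t i
        rw [this] at hUd
        exact not_isUnit_zero hUd
      have hnn : 0 ≤ h0 := by
        have := hH.posSemidef.dotProduct_mulVec_nonneg (fun i => (v i : ℝ))
        rw [hh0]
        simpa using this
      have hmain : 1 ≤ (4 : ℝ) ^ (2 * g) * (B : ℝ) ^ (2 * g - 1) * h0 := by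
        by_cases hc : (2 * B : ℝ) ^ (2 * g - 1) * h0 < 1
        · -- the integers vanish
          have hz : ∀ m < 2 * g, form A A' m v = 0 := by
            intro m hm
            have t1 : |((form A A' m v : ℤ) : ℝ)| < 1 := by
              refine (n3 m).trans_lt (lt_of_le_of_lt ?_ hc)
              refine mul_le_mul_of_nonneg_right ?_ hnn
              exact pow_le_pow_right₀ (by linarith) (by omega)
            rw [← Int.cast_abs] at t1
            have t2 : |form A A' m v| < 1 := by exact_mod_cast t1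
            exact Int.abs_lt_one_iff.1 t2
          obtain ⟨x, hx⟩ : ∃ x : L, x = ∑ i, (v i : L) * e i := ⟨_, rfl⟩
          have hf : ∀ m, ((form A A' m v : ℤ) : ℚ) = hG.top (θ ^ m * x ^ 2) := by
            intro m
            rw [hform m v, div_one, hx]
          have hc2 := const_of_top hG (x ^ 2) (fun m hm => by
            rw [← hf, hz m hm, Int.cast_zero])
          rw [← hf] at hc2
          obtain ⟨j, hjx⟩ := rat_of_sq hG.rank x (form A A' (2 * g) v) (by
            rw [hc2]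
            simp)
          have hjv : (j : L) = ∑ i, (v i : L) * e i := by rw [hjx, hx]
          rcases hj j ⟨v, hjv⟩ with hj0 | hj1
          · exfalso
            apply hv0
            rw [hj0, Int.cast_zero] at hjv
            have t := (Fintype.linearIndependent_iff.1 hli) (fun i => (v i : ℚ)) (by
              rw [hjv]
              refine Finset.sum_congr rfl fun i _ => ?_
              rw [Algebra.smul_def]
              simp)
            funext i
            have := t i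
            exact_mod_cast this
          · have t1 := n4 j hjv
            have t2 : (B : ℝ) ≤ (j : ℝ) ^ 2 := by exact_mod_cast hj1
            have t3 : (B : ℝ) * 1 ≤ B * ((4 : ℝ) ^ (2 * g) * (B : ℝ) ^ (2 * g - 1) * h0) := by
              rw [mul_one]
              refine (t2.trans t1).trans (le_of_eq ?_)
              have t4 : (B : ℝ) ^ (2 * g) = B * (B : ℝ) ^ (2 * g - 1) := by
                rw [← pow_succ']
                congr 1
                omega
              rw [mul_pow, t4]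
              ring
            exact le_of_mul_le_mul_left t3 (by linarith)
        · push Not at hc
          refine hc.trans ?_
          refine mul_le_mul_of_nonneg_right ?_ hnn
          rw [mul_pow]
          refine mul_le_mul_of_nonneg_right ?_ (by positivity)
          calc (2 : ℝ) ^ (2 * g - 1) ≤ 2 ^ (2 * g) := pow_le_pow_right₀ (by norm_num) (by omega)
            _ ≤ 4 ^ (2 * g) := pow_le_pow_left₀ (by norm_num) (by norm_num) _
      have hexp : 1 ≤ (4 : ℝ) ^ ((2 * g : ℕ) + ((N * (2 * g - 1) : ℕ) : ℤ) + ((C : ℤ) + w 0)) := by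
        refine hmain.trans ?_
        rw [zpow_add₀ (by norm_num), zpow_add₀ (by norm_num), zpow_natCast, zpow_natCast]
        refine mul_le_mul ?_ hle hnn (by positivity)
        refine mul_le_mul_of_nonneg_left ?_ (by positivity)
        rw [pow_mul]
        exact pow_le_pow_left₀ (by linarith) hBN1 _
      have hexp2 : 0 ≤ ((2 * g : ℕ) : ℤ) + ((N * (2 * g - 1) : ℕ) : ℤ) + ((C : ℤ) + w 0) := by
        by_contra t
        push Not at t
        exact absurd (zpow_lt_one_of_neg₀ (by norm_num : (1 : ℝ) < 4) t) (not_lt.2 hexp)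
      unfold Deep
      have t1 : ((2 * g - 1 : ℕ) : ℤ) = 2 * g - 1 := by
        rw [Nat.cast_sub (by omega)]
        push_cast
        ring
      rw [Nat.cast_mul N, t1] at hexp2
      rw [hκ]
      push_cast at hexp2 ⊢
      nlinarith
  · -- the trace
    have t1 := Matrix.trace_eq_neg_charpoly_coeff (A₁⁻¹ * A₂)
    have t2 : (A₁⁻¹ * A₂).charpoly = f := hchp1
    rw [t2, Fintype.card_fin, Nat.add_sub_cancel, hHt.tr, neg_zero] at t1
    exact t1
  · intro q hq
    rw [hchp1]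
    exact hcon q hq
  · -- distinguished
    intro q hq
    obtain ⟨ξ, s, hs, hξ⟩ := hdist q hq
    refine ⟨U⁻¹ *ᵥ ξ, s, hs, ?_⟩
    have hUU : U *ᵥ (U⁻¹ *ᵥ ξ) = ξ := by
      rw [Matrix.mulVec_mulVec, Matrix.mul_nonsing_inv _ hUd, Matrix.one_mulVec]
    have hsum : ∑ j, (((U⁻¹ *ᵥ ξ) j : ℤ) : L) * e' j = ∑ i, (ξ i : L) * e i := by
      rw [he']
      simp only [Finset.mul_sum]
      rw [Finset.sum_comm]
      refine Finset.sum_congr rfl fun i _ => ?_
      have t1 : ξ i = ∑ j, U i j * (U⁻¹ *ᵥ ξ) j := by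
        conv_lhs => rw [← hUU]
        rfl
      rw [t1, Int.cast_sum, Finset.sum_mul]
      refine Finset.sum_congr rfl fun j _ => ?_
      push_cast
      ring
    intro m hm
    have t2 : form A₁ A₂ m (U⁻¹ *ᵥ ξ) = form A A' m ξ := by
      apply Int.cast_injective (α := ℚ)
      rw [hform1, hform, hsum]
    rw [t2]
    exact hξ m hm

end Pool.Agent.N134.PQ
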