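import Pool.Agent.N783.PQ.Cnt
import Pool.Agent.N568.PJ.D12
import Pool.Agent.N402.PJ.LD
import Pool.Agent.N402.PJ.BX

/-!
# Project PQ (helper783), parts LD and BX (helper134)

`ld : S_LD` is adapted from the file of helper402 for project PJ.
-/

set_option autoImplicit false
set_option linter.all false

open Polynomial
open scoped Classical

namespace Pool.Agent.N134.PQ

open Pool.Agent.N783.PQ
open Pool.Agent.N352.PJ (dd pol dis Dy D2 Dz)
open Pool.Agent.N402.PJ.LD (dc Dy_congr D2_congr no_double)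

/-! ### roots modulo `P` -/

/-- the residues modulo `P ^ 2` -/
abbrev SS (P : ℕ) : Type := Fin (P ^ 2)

theorem fibP {P : ℕ} (hP : 0 < P) (r : ZMod P) :
    (Finset.univ.filter fun y : SS P => ((y : ℕ) : ZMod P) = r).card ≤ P := by
  have h1 : (Finset.univ.filter fun y : SS P => ((y : ℕ) : ZMod P) = r).card ≤
      (Finset.range P).card := by
    refine Finset.card_le_card_of_injOn (fun y => (y : ℕ) / P) ?_ ?_
    · intro y _
      rw [Finset.mem_coe, Finset.mem_range]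
      have := y.2
      exact Nat.div_lt_of_lt_mul (by rwa [← sq])
    · intro y hy y' hy' he
      rw [Finset.mem_coe, Finset.mem_filter] at hy hy'
      have h2 : ((y : ℕ) : ZMod P) = ((y' : ℕ) : ZMod P) := hy.2.trans hy'.2.symm
      rw [ZMod.natCast_eq_natCast_iff] at h2
      have h3 : (y : ℕ) % P = (y' : ℕ) % P := h2
      have h4 : (y : ℕ) / P = (y' : ℕ) / P := he
      apply Fin.ext
      rw [← Nat.div_add_mod (y : ℕ) P, ← Nat.div_add_mod (y' : ℕ) P, h3, h4]
  rwa [Finset.card_range] at h1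

theorem roots1 {P : ℕ} [hp : Fact P.Prime] (G : (ZMod P)[X]) (d : ℕ) (hd : G.natDegree ≤ d)
    (h0 : G ≠ 0) :
    (Finset.univ.filter fun y : SS P => G.eval ((y : ℕ) : ZMod P) = 0).card ≤ d * P := by
  have hcard : G.roots.toFinset.card ≤ d :=
    (Multiset.toFinset_card_le _).trans ((card_roots' _).trans hd)
  have h1 := Finset.card_le_mul_card_image_of_maps_to
      (s := Finset.univ.filter fun y : SS P => G.eval ((y : ℕ) : ZMod P) = 0)
      (t := G.roots.toFinset) (f := fun y : SS P => ((y : ℕ) : ZMod P))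
      (fun y hy => by
        rw [Multiset.mem_toFinset, mem_roots h0, IsRoot]
        exact (Finset.mem_filter.1 hy).2) P (by
        intro ρ _
        refine (Finset.card_le_card ?_).trans (fibP hp.out.pos ρ)
        intro y hy
        rw [Finset.mem_filter] at hy ⊢
        exact ⟨Finset.mem_univ _, hy.2⟩)
  exact (h1.trans (Nat.mul_le_mul_left _ hcard)).trans_eq (mul_comm _ _)

theorem zP {P : ℕ} (x : ℤ) : (Int.castRingHom (ZMod P)) x = 0 ↔ (P : ℤ) ∣ x := by
  rw [eq_intCast, ZMod.intCast_zmod_eq_zero_iff_dvd]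

theorem roots2 {P : ℕ} [hp : Fact P.Prime] (F : ℤ[X]) (d : ℕ) (hd : F.natDegree ≤ d)
    (hc : ¬ (P : ℤ) ∣ F.coeff d)
    (hs : ∀ y : ℤ, (P : ℤ) ∣ F.eval y → ¬ (P : ℤ) ∣ (derivative F).eval y) :
    (Finset.univ.filter fun y : SS P => (P : ℤ) ^ 2 ∣ F.eval (((y : ℕ) : ℤ))).card ≤ d := by
  have hP : Prime (P : ℤ) := Nat.prime_iff_prime_int.1 hp.out
  have hne : F.map (Int.castRingHom (ZMod P)) ≠ 0 := by
    intro h
    have h1 := congrArg (fun G => G.coeff d) h
    simp only [coeff_map, coeff_zero] at h1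
    exact hc ((zP _).1 h1)
  have hcard : (F.map (Int.castRingHom (ZMod P))).roots.toFinset.card ≤ d :=
    (Multiset.toFinset_card_le _).trans ((card_roots' _).trans
      ((natDegree_map_le).trans hd))
  refine (Finset.card_le_card_of_injOn
    (t := (F.map (Int.castRingHom (ZMod P))).roots.toFinset)
    (fun y : SS P => Int.castRingHom (ZMod P) ((y : ℕ) : ℤ)) (fun y hy => ?_) ?_).trans hcard
  · rw [Finset.mem_coe, Finset.mem_filter] at hy
    rw [Finset.mem_coe, Multiset.mem_toFinset, mem_roots hne, IsRoot, eval_map, eval₂_hom, zP]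
    exact (dvd_pow_self (P : ℤ) two_ne_zero).trans hy.2
  intro y hy y' hy' he
  rw [Finset.mem_coe, Finset.mem_filter] at hy hy'
  have hd1 : (P : ℤ) ∣ ((y' : ℕ) : ℤ) - ((y : ℕ) : ℤ) := by
    rw [← zP, map_sub, sub_eq_zero]
    exact he.symm
  have hd2 : (P : ℤ) ^ 2 ∣ ((y' : ℕ) : ℤ) - ((y : ℕ) : ℤ) := by
    obtain ⟨z, hz⟩ := hd1
    obtain ⟨t, ht⟩ := Polynomial.binomExpansion F ((y : ℕ) : ℤ) (((y' : ℕ) : ℤ) - ((y : ℕ) : ℤ))
    rw [add_sub_cancel] at ht
    obtain ⟨u, hu⟩ := hy.2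
    obtain ⟨u', hu'⟩ := hy'.2
    have h5 : (P : ℤ) * (P * (u' - u - t * z ^ 2)) =
        P * ((derivative F).eval ((y : ℕ) : ℤ) * z) := by
      rw [hu, hu', hz] at ht
      linear_combination ht
    have h6 : (P : ℤ) ∣ (derivative F).eval ((y : ℕ) : ℤ) * z :=
      ⟨_, (mul_left_cancel₀ hP.ne_zero h5).symm⟩
    rcases hP.dvd_or_dvd h6 with h7 | ⟨w, hw⟩
    · exact absurd h7 (hs _ ((dvd_pow_self (P : ℤ) two_ne_zero).trans hy.2))
    · exact ⟨w, by rw [hz, hw]; ring⟩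
  apply Fin.ext
  have hy1 := y.2
  have hy2 := y'.2
  have h8 : ((y' : ℕ) : ℤ) - ((y : ℕ) : ℤ) = 0 := by
    apply Int.eq_zero_of_abs_lt_dvd hd2
    have e1 : ((y : ℕ) : ℤ) < (P : ℤ) ^ 2 := by exact_mod_cast hy1
    have e2 : ((y' : ℕ) : ℤ) < (P : ℤ) ^ 2 := by exact_mod_cast hy2
    rw [abs_lt]
    constructor <;> omega
  omega

/-! ### the count -/

section count

variable {g P : ℕ}

/-- the underlying tuple -/
def co (a : Fin (2 * g) → SS P) : Fin (2 * g) → ℤ := fun j => ((a j : ℕ) : ℤ)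

theorem co_update (a : Fin (2 * g) → SS P) (i : Fin (2 * g)) (y : SS P) (n : ℕ) (hi : (i : ℕ) = n) :
    co (Function.update a i y) =
      fun j : Fin (2 * g) => if (j : ℕ) = n then ((y : ℕ) : ℤ) else co a j := by
  funext j
  by_cases hj : j = i
  · subst hj
    rw [if_pos hi, co, Function.update_self]
  · rw [if_neg (by rw [← hi]; exact fun h => hj (Fin.ext h)), co, Function.update_of_ne hj, co]

end count

/-- **PQ/LD** -/
theorem ld : S_LD := by
  intro g P hg hPp hlt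
  haveI : Fact P.Prime := ⟨hPp⟩
  have hP : Prime (P : ℤ) := Nat.prime_iff_prime_int.1 hPp
  have h1 := Pool.Agent.N568.PJ.d1
  have h2 := Pool.Agent.N568.PJ.d2
  have hi0 : 0 < 2 * g := by omega
  have hi1 : 1 < 2 * g := by omega
  have hM : 0 < P := hPp.pos
  -- the number of tuples
  have hSS : Fintype.card (SS P) = P ^ 2 := Fintype.card_fin _
  have hV : (Finset.univ : Finset (Fin (2 * g) → SS P)).card = P ^ (4 * g) := by
    rw [Finset.card_univ, Fintype.card_fun, hSS, Fintype.card_fin, ← pow_mul]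
    congr 1
    ring
  have hfac : ((2 * g + 1).factorial : ZMod P) ≠ 0 := by
    intro h
    rw [ZMod.natCast_eq_zero_iff] at h
    have := (hPp.dvd_factorial).1 h
    omega
  have hcoef : ∀ b : Fin (2 * g) → ℤ, ¬ (P : ℤ) ∣ (Dy b).coeff (2 * g) := by
    intro b hb
    obtain ⟨_, ⟨ε, hε, hc⟩, _⟩ := h1 g ℤ b hg
    rw [hc] at hb
    rcases hP.dvd_or_dvd hb with h | h
    · have h3 : IsUnit ((ε : ℤ)) := by
        rcases hε with rfl | rfl
        · exact isUnit_one
        · exact isUnit_one.neg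
      exact hP.not_unit (isUnit_of_dvd_unit h (by simpa using h3))
    · have h4 := hP.dvd_of_dvd_pow h
      have h5 : (P : ℤ) ∣ ((2 * g + 1 : ℕ) : ℤ) := by exact_mod_cast h4
      have h6 : P ∣ 2 * g + 1 := by exact_mod_cast h5
      have := Nat.le_of_dvd (by omega) h6
      omega
  have hDy : ∀ b : Fin (2 * g) → ℤ, (Dy b).natDegree ≤ 2 * g := fun b => (h1 g ℤ b hg).1
  have hDy' : ∀ b : Fin (2 * g) → ℤ, (derivative (Dy b)).natDegree ≤ 2 * g - 1 := fun b =>
    (natDegree_derivative_le _).trans (Nat.sub_le_sub_right (hDy b) 1)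
  -- the three sets
  have hE := dc (ι := Fin (2 * g)) (S := SS P) ⟨1, hi1⟩ (fun a => (P : ℤ) ∣ D2 (co a))
    (fun _ => True)
    ((2 * g - 1) * (2 * g + 1) * P) (fun _ _ _ => trivial) (by
      intro a _
      obtain ⟨h3, h4, h5⟩ := h2 g (ZMod P) (ZMod P) (fun j => Int.castRingHom (ZMod P) (co a j)) hg
        hfac
      have h0 : Dz (fun j => Int.castRingHom (ZMod P) (co a j)) ≠ 0 := by
        intro h
        rw [h, coeff_zero] at h4
        exact not_isUnit_zero h4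
      refine le_trans (Finset.card_le_card ?_) (roots1 _ _ h3 h0)
      intro y hy
      rw [Finset.mem_filter] at hy ⊢
      refine ⟨Finset.mem_univ _, ?_⟩
      have h6 := (zP _).2 hy.2
      rw [co_update a ⟨1, hi1⟩ y 1 rfl, Pool.Agent.N568.PJ.D2_map] at h6
      rw [h5, ← h6]
      apply Pool.Agent.N568.PJ.D2_congr
      intro j
      split_ifs with hj
      · simp
      · rfl)
  have hA := dc (ι := Fin (2 * g)) (S := SS P) ⟨0, hi0⟩
    (fun a => ¬ (P : ℤ) ∣ D2 (co a) ∧ (P : ℤ) ^ 2 ∣ dis (co a)) (fun _ => True)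
    (2 * g) (fun _ _ _ => trivial) (by
      intro a _
      obtain ⟨h3, _, h5⟩ := h1 g ℤ (co a) hg
      by_cases hD : (P : ℤ) ∣ D2 (co a)
      · rw [Finset.card_eq_zero.2]
        · exact Nat.zero_le _
        · rw [Finset.filter_eq_empty_iff]
          intro y _ hy
          apply hy.1
          rw [D2_congr (b := co a)]
          · exact hD
          · intro j hj
            rw [co_update a ⟨0, hi0⟩ y 0 rfl]
            simp only [if_neg hj]
      · refine le_trans (Finset.card_le_card ?_) (roots2 _ _ h3 (hcoef _)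
          (no_double h3 (hDy' _) hi0.ne' hD))
        intro y hy
        rw [Finset.mem_filter] at hy ⊢
        refine ⟨Finset.mem_univ _, ?_⟩
        rw [h5, ← co_update a ⟨0, hi0⟩ y 0 rfl]
        exact hy.2.2)
  have hB := dc (ι := Fin (2 * g)) (S := SS P) ⟨0, hi0⟩
    (fun a => (P : ℤ) ∣ D2 (co a) ∧ (P : ℤ) ∣ dis (co a)) (fun a => (P : ℤ) ∣ D2 (co a))
    (2 * g * P) (by
      intro a y h
      rw [D2_congr (b := co (Function.update a ⟨0, hi0⟩ y))]
      · exact h.1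
      · intro j hj
        rw [co_update a ⟨0, hi0⟩ y 0 rfl]
        simp only [if_neg hj]) (by
      intro a _
      obtain ⟨h3, _, h5⟩ := h1 g ℤ (co a) hg
      have hne : (Dy (co a)).map (Int.castRingHom (ZMod P)) ≠ 0 := by
        intro h
        have h6 := congrArg (fun G => G.coeff (2 * g)) h
        simp only [coeff_map, coeff_zero] at h6
        exact hcoef _ ((zP _).1 h6)
      refine le_trans (Finset.card_le_card ?_) (roots1 _ _ ((natDegree_map_le).trans h3) hne)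
      intro y hy
      rw [Finset.mem_filter] at hy ⊢
      refine ⟨Finset.mem_univ _, ?_⟩
      have h6 : (P : ℤ) ∣ (Dy (co a)).eval ((y : ℕ) : ℤ) := by
        rw [h5, ← co_update a ⟨0, hi0⟩ y 0 rfl]
        exact hy.2.2
      rw [← zP, ← eval₂_hom, ← eval_map] at h6
      simpa using h6)
  rw [hSS] at hE hA hB
  rw [Finset.filter_true, hV] at hE hA
  set e := (Finset.univ.filter fun a : Fin (2 * g) → SS P => (P : ℤ) ∣ D2 (co a)).card with he
  set α := (Finset.univ.filter fun a : Fin (2 * g) → SS P =>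
    ¬ (P : ℤ) ∣ D2 (co a) ∧ (P : ℤ) ^ 2 ∣ dis (co a)).card with hα
  set β := (Finset.univ.filter fun a : Fin (2 * g) → SS P =>
    (P : ℤ) ∣ D2 (co a) ∧ (P : ℤ) ∣ dis (co a)).card with hβ
  have hB2 : β * P ^ 2 ≤ 2 * g * ((2 * g - 1) * (2 * g + 1)) * P ^ (4 * g) := by
    have h3 : P ^ 2 * (β * P ^ 2) ≤
        P ^ 2 * (2 * g * ((2 * g - 1) * (2 * g + 1)) * P ^ (4 * g)) := by
      calc P ^ 2 * (β * P ^ 2) ≤ P ^ 2 * (2 * g * P * e) := Nat.mul_le_mul_left _ hB
        _ = 2 * g * P * (e * P ^ 2) := by ring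
        _ ≤ 2 * g * P * ((2 * g - 1) * (2 * g + 1) * P * P ^ (4 * g)) :=
          Nat.mul_le_mul_left _ hE
        _ = P ^ 2 * (2 * g * ((2 * g - 1) * (2 * g + 1)) * P ^ (4 * g)) := by ring
    exact Nat.le_of_mul_le_mul_left h3 (pow_pos hM 2)
  have hset : {a : Fin (2 * g) → ℤ | (∀ j, 0 ≤ a j ∧ a j < P ^ 2) ∧
      (P : ℤ) ^ 2 ∣ dis a}.ncard ≤ α + β := by
    have h3 : {a : Fin (2 * g) → ℤ | (∀ j, 0 ≤ a j ∧ a j < P ^ 2) ∧
        (P : ℤ) ^ 2 ∣ dis a} ⊆ co '' ((Finset.univ.filter fun a : Fin (2 * g) → SS P =>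
          (P : ℤ) ^ 2 ∣ dis (co a) : Finset (Fin (2 * g) → SS P)) : Set (Fin (2 * g) → SS P)) := by
      rintro a ⟨ha, ha2⟩
      have h4 : co (P := P) (fun j => ⟨(a j).toNat, by
          have h5 := (ha j).1
          have h6 := (ha j).2
          zify
          rwa [Int.toNat_of_nonneg h5]⟩) = a := by
        funext j
        exact Int.toNat_of_nonneg (ha j).1
      refine ⟨_, ?_, h4⟩
      rw [Finset.mem_coe, Finset.mem_filter, h4]
      exact ⟨Finset.mem_univ _, ha2⟩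
    refine (Set.ncard_le_ncard h3 ((Finset.finite_toSet _).image _)).trans ?_
    refine (Set.ncard_image_le (Finset.finite_toSet _)).trans ?_
    rw [Set.ncard_coe_finset]
    refine (Finset.card_le_card ?_).trans (Finset.card_union_le _ _)
    intro a ha
    rw [Finset.mem_filter] at ha
    rw [Finset.mem_union, Finset.mem_filter, Finset.mem_filter]
    by_cases hD : (P : ℤ) ∣ D2 (co a)
    · exact Or.inr ⟨Finset.mem_univ _, hD, (dvd_pow_self (P : ℤ) two_ne_zero).trans ha.2⟩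
    · exact Or.inl ⟨Finset.mem_univ _, hD, ha.2⟩
  calc _ ≤ (α + β) * P ^ 2 := Nat.mul_le_mul_right _ hset
    _ = α * P ^ 2 + β * P ^ 2 := by ring
    _ ≤ 2 * g * P ^ (4 * g) + 2 * g * ((2 * g - 1) * (2 * g + 1)) * P ^ (4 * g) :=
      Nat.add_le_add hA hB2
    _ = _ := by ring

/-! ### the boxes -/

/-- the integers of a box in a residue class -/
def Tc (T W : ℕ) (A : ℤ) : Set ℤ := {x | |x| ≤ (T : ℤ) ∧ (W : ℤ) ∣ x - A}

theorem Tc_card {T W : ℕ} (hW : 0 < W) (hT : W ≤ T) (A : ℤ) :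
    (Tc T W A).Finite ∧ T ≤ (Tc T W A).ncard * W ∧ (Tc T W A).ncard * W ≤ 3 * T := by
  have h1 : Tc T W A = ((Finset.Ioc (-(T : ℤ) - 1) T).filter (fun x => x ≡ A [ZMOD (W : ℤ)]) :
      Finset ℤ) := by
    ext x
    rw [Finset.mem_coe, Finset.mem_filter, Finset.mem_Ioc, Tc, Set.mem_setOf_eq, abs_le]
    constructor
    · rintro ⟨⟨h2, h3⟩, h4⟩
      exact ⟨⟨by omega, h3⟩, (Int.modEq_iff_dvd.2 h4).symm⟩
    · rintro ⟨⟨h2, h3⟩, h4⟩
      exact ⟨⟨by omega, h3⟩, Int.modEq_iff_dvd.1 h4.symm⟩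
  have hW' : (0 : ℤ) < W := by exact_mod_cast hW
  have h2 := Int.Ioc_filter_modEq_card (-(T : ℤ) - 1) T hW' A
  rw [h1]
  refine ⟨Finset.finite_toSet _, ?_⟩
  rw [Set.ncard_coe_finset]
  set n := ((Finset.Ioc (-(T : ℤ) - 1) T).filter (fun x => x ≡ A [ZMOD (W : ℤ)])).card with hn
  have hWq : (0 : ℚ) < ((W : ℤ) : ℚ) := by exact_mod_cast hW
  set u := ⌊(((T : ℤ) : ℚ) - (A : ℚ)) / ((W : ℤ) : ℚ)⌋ with hu
  set v := ⌊(((-(T : ℤ) - 1 : ℤ) : ℚ) - (A : ℚ)) / ((W : ℤ) : ℚ)⌋ with hv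
  have u1 : (u : ℚ) * ((W : ℤ) : ℚ) ≤ ((T : ℤ) : ℚ) - (A : ℚ) := by
    rw [← le_div_iff₀ hWq]
    exact Int.floor_le _
  have u2 : ((T : ℤ) : ℚ) - (A : ℚ) < ((u : ℚ) + 1) * ((W : ℤ) : ℚ) := by
    rw [← div_lt_iff₀ hWq]
    exact Int.lt_floor_add_one _
  have v1 : (v : ℚ) * ((W : ℤ) : ℚ) ≤ ((-(T : ℤ) - 1 : ℤ) : ℚ) - (A : ℚ) := by
    rw [← le_div_iff₀ hWq]
    exact Int.floor_le _
  have v2 : ((-(T : ℤ) - 1 : ℤ) : ℚ) - (A : ℚ) < ((v : ℚ) + 1) * ((W : ℤ) : ℚ) := by
    rw [← div_lt_iff₀ hWq]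
    exact Int.lt_floor_add_one _
  have u1' : u * W ≤ T - A := by exact_mod_cast u1
  have u2' : T - A < (u + 1) * W := by exact_mod_cast u2
  have v1' : v * W ≤ -(T : ℤ) - 1 - A := by exact_mod_cast v1
  have v2' : -(T : ℤ) - 1 - A < (v + 1) * W := by exact_mod_cast v2
  have hT' : (W : ℤ) ≤ T := by exact_mod_cast hT
  have huv : v ≤ u := by
    by_contra h
    have h3 : u + 1 ≤ v := by omega
    have := mul_le_mul_of_nonneg_right h3 hW'.le
    linarith
  rw [max_eq_left (by linarith)] at h2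
  have h4 : (n : ℤ) * W = u * W - v * W := by rw [h2]; ring
  constructor
  · zify
    rw [h4]
    linarith
  · zify
    rw [h4]
    have : (n : ℤ) * W < 3 * T + 1 := by
      rw [h4]
      linarith
    rw [← h4]
    omega

/-- **PQ/BX** -/
theorem bx : S_BX := by
  intro g B W A hW hWB
  have hB1 : 0 < B := by omega
  have hm : ∀ j : Fin (2 * g), W ≤ B ^ (2 * g + 1 - (j : ℕ)) := by
    intro j
    have hj := j.2
    exact hWB.trans (Nat.le_self_pow (by omega) B)
  have hB : Bx g B W A = Set.pi Set.univ fun j : Fin (2 * g) =>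
      Tc (B ^ (2 * g + 1 - (j : ℕ))) W (A j) := by
    ext a
    simp only [Bx, Tc, Set.mem_setOf_eq, Set.mem_pi, Set.mem_univ, true_implies, Nat.cast_pow]
    exact ⟨fun h j => ⟨h.1 j, h.2 j⟩, fun h => ⟨fun j => (h j).1, fun j => (h j).2⟩⟩
  have hc := fun j : Fin (2 * g) => Tc_card hW (hm j) (A j)
  have hfin : (Bx g B W A).Finite := by
    rw [hB]
    exact Set.Finite.pi fun j => (hc j).1
  have h1 : (Bx g B W A).ncard * W ^ (2 * g) = ∏ j : Fin (2 * g),
      (Tc (B ^ (2 * g + 1 - (j : ℕ))) W (A j)).ncard * W := by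
    rw [Finset.prod_mul_distrib, Finset.prod_const, Finset.card_univ, Fintype.card_fin, hB]
    congr 1
    rw [← Nat.card_coe_set_eq, Nat.card_congr (Equiv.Set.univPi _), Nat.card_pi]
    rfl
  have h2 : B ^ dd g = ∏ j : Fin (2 * g), B ^ (2 * g + 1 - (j : ℕ)) := by
    rw [Finset.prod_pow_eq_pow_sum]
    congr 1
    have h3 := Pool.Agent.N402.PJ.sum_M g 1
    rw [← Finset.mul_sum] at h3
    omega
  refine ⟨hfin, ?_, ?_⟩
  · rw [h1, h2]
    exact Finset.prod_le_prod' fun j _ => (hc j).2.1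
  · rw [h1, h2]
    have h3 : (3 : ℕ) ^ (2 * g) = ∏ _j : Fin (2 * g), 3 := by
      rw [Finset.prod_const, Finset.card_univ, Fintype.card_fin]
    rw [h3, ← Finset.prod_mul_distrib]
    exact Finset.prod_le_prod' fun j _ => (hc j).2.2

end Pool.Agent.N134.PQ
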